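import Pool.Agent.Helper44.GJ.Stmts

/-! The matrix `Bp`: it is a left inverse of `V`. -/

set_option autoImplicit false

open Finset MeasureTheory Filter Topology Matrix
open scoped ENNReal ContDiff

namespace Pool.Agent.Helper44.GJ

open Pool.Agent.Helper44.GF Pool.Agent.Helper44.GN Pool.Agent.Helper44.GH

section bpp

variable {n m : ℕ}

/-- size of the values of a matrix -/
theorem bpp_mv (V : Matrix (Fin n) (Fin m) ℝ) (i : Fin n) (x : Fin m → ℝ) :
    |V.mulVec x i| ≤ (∑ j, |V i j|) * ‖x‖ := by
  have h1 : V.mulVec x i = ∑ j, V i j * x j := rfl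
  rw [h1, Finset.sum_mul]
  refine (Finset.abs_sum_le_sum_abs _ _).trans (Finset.sum_le_sum fun j _ => ?_)
  rw [abs_mul]
  refine mul_le_mul_of_nonneg_left ?_ (abs_nonneg _)
  have := norm_le_pi_norm x j
  rwa [Real.norm_eq_abs] at this

theorem bpp_cont (V : Matrix (Fin n) (Fin m) ℝ) (i : Fin n) : Continuous fun x : Fin m → ℝ => V.mulVec x i := by
  have h1 : (fun x : Fin m → ℝ => V.mulVec x i) = fun x => ∑ j, V i j * x j := rfl
  rw [h1]
  exact continuous_finsetSum _ fun j _ => continuous_const.mul (continuous_apply j)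

/-- integrability of the moments -/
theorem bpp_int (hG : ST_GD) (hI : ST_IN0) {p : ℝ} (hp : 2 < p) (hp3 : p ≤ 3) (V : Matrix (Fin n) (Fin m) ℝ)
    (hV : Function.Injective V.mulVec) (a : Fin m) (i : Fin n) :
    Integrable (fun x : Fin m → ℝ => x a * g1 p (V.mulVec x i) * ee p V x) := by
  obtain ⟨-, -, hc, -, -, -, hb, -⟩ := hG p hp hp3
  set A : ℝ := ∑ j, |V i j| with hA
  have hA0 : 0 ≤ A := Finset.sum_nonneg fun _ _ => abs_nonneg _
  refine (hI n m p V (by linarith) hV).2.2 (fun x => x a * g1 p (V.mulVec x i)) (3 * (1 + A) ^ 2) 3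
    (((continuous_apply a).mul (hc.comp (bpp_cont V i))).aestronglyMeasurable) fun x => ?_
  have h1 : |x a| ≤ 1 + ‖x‖ := by
    have := norm_le_pi_norm x a
    rw [Real.norm_eq_abs] at this
    linarith
  have h2 : 1 + |V.mulVec x i| ≤ (1 + A) * (1 + ‖x‖) := by
    have := bpp_mv V i x
    have := norm_nonneg x
    nlinarith
  have h3 : |g1 p (V.mulVec x i)| ≤ 3 * ((1 + A) * (1 + ‖x‖)) ^ 2 := by
    refine (hb _).trans (mul_le_mul_of_nonneg_left ?_ (by norm_num))
    exact pow_le_pow_left₀ (by positivity) h2 2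
  rw [abs_mul]
  calc |x a| * |g1 p (V.mulVec x i)| ≤ (1 + ‖x‖) * (3 * ((1 + A) * (1 + ‖x‖)) ^ 2) :=
        mul_le_mul h1 h3 (abs_nonneg _) (by positivity)
    _ = 3 * (1 + A) ^ 2 * (1 + ‖x‖) ^ 3 := by ring

/-- linearity -/
theorem bpp_lin {p : ℝ} {V : Matrix (Fin n) (Fin m) ℝ} {ι : Type} [Fintype ι] (G : ι → (Fin m → ℝ) → ℝ)
    (c : ι → ℝ) (h : ∀ i, Integrable fun x : Fin m → ℝ => G i x * ee p V x) :
    IE p V (fun x => ∑ i, G i x * c i) = ∑ i, IE p V (G i) * c i := by
  unfold IE
  have h1 : (fun x : Fin m → ℝ => (∑ i, G i x * c i) * ee p V x) = fun x => ∑ i, G i x * ee p V x * c i := by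
    funext x
    rw [Finset.sum_mul]
    exact Finset.sum_congr rfl fun i _ => by ring
  rw [h1, integral_finset_sum _ fun i _ => (h i).mul_const (c i)]
  exact Finset.sum_congr rfl fun i _ => integral_mul_const _ _

end bpp

theorem st_BPP (hB : ST_IBP) (hG : ST_GD) (hI : ST_IN0) : ST_BPP := by
  intro n m p V hp hp3 hV
  obtain ⟨hM, hee, -⟩ := hI n m p V (by linarith) hV
  have hint := bpp_int hG hI hp hp3 V hV
  -- moments
  have hmom : ∀ (Z : Matrix (Fin n) (Fin m) ℝ) (a b : Fin m),
      IE p V (fun x => x a * gz p V Z x b) = (Bp p V * Z) a b * Mp p V := by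
    intro Z a b
    have h1 : (fun x : Fin m → ℝ => x a * gz p V Z x b) =
        fun x => ∑ i, (x a * g1 p (V.mulVec x i)) * Z i b := by
      funext x
      unfold gz
      rw [Finset.mul_sum]
      exact Finset.sum_congr rfl fun i _ => by ring
    rw [h1, bpp_lin (fun i x => x a * g1 p (V.mulVec x i)) (fun i => Z i b) (hint a), Matrix.mul_apply,
      Finset.sum_mul]
    refine Finset.sum_congr rfl fun i _ => ?_
    have h2 : Bp p V a i = IE p V (fun x => x a * g1 p (V.mulVec x i)) / Mp p V := rfl
    rw [h2]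
    field_simp
  refine ⟨?_, ?_, fun Z => ⟨hmom Z, ?_⟩⟩
  · ext a b
    have h1 := hB n m p V hp hp3 hV (Pi.single b 1) (fun x => x a) (fun _ => (Pi.single b 1 : Fin m → ℝ) a) 1 1
      (fun x => by
        have h2 : (fun r : ℝ => (x + r • (Pi.single b 1 : Fin m → ℝ)) a) =
            fun r => x a + r * (Pi.single b 1 : Fin m → ℝ) a := by
          funext r
          simp only [Pi.add_apply, Pi.smul_apply, smul_eq_mul]
        rw [h2]
        have h3 := ((hasDerivAt_id (0 : ℝ)).mul_const ((Pi.single b 1 : Fin m → ℝ) a)).const_add (x a)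
        rw [one_mul] at h3
        exact h3) (continuous_apply a) continuous_const
      (fun x => by
        have := norm_le_pi_norm x a
        rw [Real.norm_eq_abs] at this
        have h4 : (1 : ℝ) * (1 + ‖x‖) ^ 1 = 1 + ‖x‖ := by ring
        rw [h4]
        linarith)
      (fun x => by
        have h4 : |(Pi.single b 1 : Fin m → ℝ) a| ≤ 1 := by
          by_cases hab : a = b
          · subst hab
            rw [Pi.single_eq_same, abs_one]
          · rw [Pi.single_eq_of_ne hab, abs_zero]
            exact zero_le_one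
        have h5 := norm_nonneg x
        have h6 : (1 : ℝ) * (1 + ‖x‖) ^ 1 = 1 + ‖x‖ := by ring
        rw [h6]
        linarith)
    have h2 : ∀ i, V.mulVec (Pi.single b 1) i = V i b := by
      intro i
      rw [Matrix.mulVec_single_one]
      rfl
    have h3 : (fun x : Fin m → ℝ => x a * ∑ i, g1 p (V.mulVec x i) * V.mulVec (Pi.single b 1) i) =
        fun x => x a * gz p V V x b := by
      funext x
      unfold gz
      congr 1
      exact Finset.sum_congr rfl fun i _ => by rw [h2]
    rw [h3, hmom V a b] at h1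
    have h4 : IE p V (fun _ => (Pi.single b 1 : Fin m → ℝ) a) = (Pi.single b 1 : Fin m → ℝ) a * Mp p V := by
      unfold IE Mp
      exact integral_const_mul _ _
    rw [h4] at h1
    have h5 := mul_right_cancel₀ hM.ne' h1
    rw [← h5, Matrix.one_apply, Pi.single_apply]
  · intro i hi a
    have h1 : Bp p V a i = IE p V (fun x => x a * g1 p (V.mulVec x i)) / Mp p V := rfl
    have h2 : (fun x : Fin m → ℝ => x a * g1 p (V.mulVec x i)) = fun _ => 0 := by
      funext x
      have h3 : V.mulVec x i = 0 := by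
        show V i ⬝ᵥ x = 0
        rw [hi, zero_dotProduct]
      rw [h3, (hG p hp hp3).2.2.2.2.2.2.2.2.1, mul_zero]
    rw [h1, h2]
    unfold IE
    simp only [zero_mul, integral_zero, zero_div]
  · unfold M1
    have h1 : hz p V Z = fun x : Fin m → ℝ => ∑ a, (x a * gz p V Z x a) * 1 := by
      funext x
      unfold hz gz
      have h2 : ∀ i, g1 p (V.mulVec x i) * Z.mulVec x i = ∑ a, x a * (g1 p (V.mulVec x i) * Z i a) := by
        intro i
        have h3 : Z.mulVec x i = ∑ a, Z i a * x a := rfl
        rw [h3, Finset.mul_sum]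
        exact Finset.sum_congr rfl fun a _ => by ring
      rw [Finset.sum_congr rfl fun i _ => h2 i, Finset.sum_comm]
      refine Finset.sum_congr rfl fun a _ => ?_
      rw [Finset.mul_sum, mul_one]
    have h2 : ∀ a, Integrable fun x : Fin m → ℝ => (x a * gz p V Z x a) * ee p V x := by
      intro a
      have h3 : (fun x : Fin m → ℝ => (x a * gz p V Z x a) * ee p V x) =
          fun x => ∑ i, x a * g1 p (V.mulVec x i) * ee p V x * Z i a := by
        funext x
        unfold gz
        rw [Finset.mul_sum, Finset.sum_mul]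
        exact Finset.sum_congr rfl fun i _ => by ring
      rw [h3]
      exact integrable_finset_sum _ fun i _ => (hint a i).mul_const _
    rw [h1, bpp_lin (fun a x => x a * gz p V Z x a) (fun _ => 1) h2, Matrix.trace, Finset.mul_sum]
    congr 1
    refine Finset.sum_congr rfl fun a _ => ?_
    rw [mul_one, hmom Z a a, Matrix.diag_apply, mul_comm]

end Pool.Agent.Helper44.GJ
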